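import Mathlib
import Pool.Agent.Y57.AK.Stm3

set_option autoImplicit false

/-! # Project AK57: the product inequality (helper700) -/

open Finset

namespace Pool.Agent.Y700.AK

open Pool.Agent.Y57.AK

theorem one_loss (L t : ℝ) (hL : 0 < L) (ht : 0 ≤ t) (h : 2 * t ≤ L) :
    Real.exp (-(3 * t / L)) * (L + t) ≤ L - t := by
  set s := t / L with hs
  have hs0 : 0 ≤ s := by positivity
  have hs1 : s ≤ 1 / 2 := by
    rw [hs, div_le_iff₀ hL]
    linarith
  have e1 : 3 * t / L = 3 * s := by rw [hs]; ring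
  have e2 : t = s * L := by rw [hs]; field_simp
  have h1 := Real.quadratic_le_exp_of_nonneg (x := 3 * s) (by positivity)
  have h2 : 1 + s ≤ (1 - s) * Real.exp (3 * s) := by
    have h3 : (1 - s) * (1 + 3 * s + (3 * s) ^ 2 / 2) ≤ (1 - s) * Real.exp (3 * s) :=
      mul_le_mul_of_nonneg_left h1 (by linarith)
    have h4 : 1 + s ≤ (1 - s) * (1 + 3 * s + (3 * s) ^ 2 / 2) := by
      nlinarith [mul_nonneg hs0 (sub_nonneg.mpr hs1), mul_nonneg (mul_nonneg hs0 hs0)
        (sub_nonneg.mpr hs1)]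
    linarith
  rw [e1, Real.exp_neg]
  have hp : 0 < Real.exp (3 * s) := Real.exp_pos _
  rw [inv_mul_le_iff₀ hp]
  have h5 : L * (1 + s) ≤ L * ((1 - s) * Real.exp (3 * s)) :=
    mul_le_mul_of_nonneg_left h2 hL.le
  calc L + t = L * (1 + s) := by rw [e2]; ring
    _ ≤ L * ((1 - s) * Real.exp (3 * s)) := h5
    _ = Real.exp (3 * s) * (L - t) := by rw [e2]; ring

theorem t_LOSS : S_LOSS := by
  intro n k L r hL h
  have hL0 : (0 : ℝ) < L := by exact_mod_cast hL
  have e1 : Real.exp (-(3 * k * (∑ i, (r i : ℝ)) / L)) =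
      ∏ i, Real.exp (-(3 * ((k : ℝ) * r i) / L)) := by
    rw [← Real.exp_sum]
    congr 1
    rw [Finset.mul_sum, Finset.sum_div, ← Finset.sum_neg_distrib]
    refine Finset.sum_congr rfl fun i _ => ?_
    ring
  rw [e1, ← Finset.prod_mul_distrib]
  refine Finset.prod_le_prod (fun i _ => by positivity) fun i _ => ?_
  refine one_loss L ((k : ℝ) * r i) hL0 (by positivity) ?_
  exact_mod_cast h i

end Pool.Agent.Y700.AK
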